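import Pool.Agent.Lib.MP_1a91b9_ntH.R.Chi
import Pool.Agent.Lib.MP_1a91b9_ntH.R.SqF
import Pool.Agent.Lib.MP_1a91b9_ntE.D.Defs

/-!
# MP_1a91b9_nt (TwistDensity), even case, part R: the symbol of `2` and the characters modulo 8

`tw2 x` is `0` if the norm of `x` is `1` or `7` modulo `8`, otherwise `1`; `qs q 2 = (-1)^(tw2 q)`.
`chE T c d` is the quadratic character `chR T c` times the `d`-th power of the symbol of `2`.
-/

set_option autoImplicit false

namespace Pool.Agent.Lib.MP_1a91b9_ntE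

open NumberField Finset Pool.Agent.Lib.MP_1a91b9_ntT Pool.Agent.Lib.MP_1a91b9_ntH

noncomputable section

/-- The quadratic character attached to `T`, `c` and `d`. -/
def DatE.chE {ι : Type} [DecidableEq ι] (D : DatE ι) (T : Finset ι) (c : F4) (d : ZMod 2) (q : ι) : ℝ :=
  if q ∈ T then 0 else sg (F4.tr (c * D.a q) + d * D.g q + ∑ p ∈ T, D.s q p)

/-- The nontrivial quadratic characters have bounded Euler products. -/
def DatE.CBE {ι : Type} [DecidableEq ι] (D : DatE ι) [PS ι] (C : ℝ) : Prop :=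
  ∀ (T : Finset ι) (c : F4) (d : ZMod 2), (T ≠ ∅ ∨ c ≠ 0 ∨ d ≠ 0) →
    CharB (D.chE T c d) (C * (1 + Real.log (nm T)))

/-- The mean values of the nontrivial characters modulo 8 on squarefree integers are zero. -/
def DatE.H3E {ι : Type} [DecidableEq ι] (D : DatE ι) [PS ι] : Prop :=
  ∀ (c : F4) (d : ZMod 2), (c ≠ 0 ∨ d ≠ 0) → ∀ ε : ℝ, 0 < ε → ∃ X₀ : ℕ, ∀ X : ℕ, X₀ ≤ X →
    |∑ S ∈ Sx ι X, sg (F4.tr (c * D.A S) + d * ∑ q ∈ S, D.g q)| ≤ ε * X

/-- `0` if `n` is `1` or `7` modulo `8`, otherwise `1`. -/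
def t8 (n : ℕ) : ZMod 2 := if n % 8 = 1 ∨ n % 8 = 7 then 0 else 1

theorem t8_mul {m n : ℕ} (hm : m % 2 = 1) (hn : n % 2 = 1) : t8 (m * n) = t8 m + t8 n := by
  have h1 : (m * n) % 8 = ((m % 8) * (n % 8)) % 8 := Nat.mul_mod m n 8
  unfold t8
  rw [h1]
  have h2 : m % 8 = 1 ∨ m % 8 = 3 ∨ m % 8 = 5 ∨ m % 8 = 7 := by omega
  have h3 : n % 8 = 1 ∨ n % 8 = 3 ∨ n % 8 = 5 ∨ n % 8 = 7 := by omega
  rcases h2 with h2 | h2 | h2 | h2 <;> rcases h3 with h3 | h3 | h3 | h3 <;> rw [h2, h3] <;>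
    rfl

theorem t8_congr {m n : ℕ} (h : m % 8 = n % 8) : t8 m = t8 n := by
  unfold t8
  rw [h]

theorem t8_one : t8 1 = 0 := rfl

/-- The symbol of `2`, as a function of the class modulo `8`. -/
def tw2 (x : 𝓞 K) : ZMod 2 := t8 (Nz x)

theorem Nz_odd {x : 𝓞 K} (h : InP x) : Nz x % 2 = 1 := by
  have := h.Nz_mod
  omega

theorem tw2_mul {x y : 𝓞 K} (hx : InP x) (hy : InP y) : tw2 (x * y) = tw2 x + tw2 y := by
  unfold tw2
  rw [Nz_mul]
  exact t8_mul (Nz_odd hx) (Nz_odd hy)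

theorem tw2_one : tw2 1 = 0 := by
  unfold tw2
  rw [Nz_one]
  rfl

theorem tw2_congr {x y : 𝓞 K} (h : (8 : 𝓞 K) ∣ x - y) : tw2 x = tw2 y := by
  obtain ⟨t, ht⟩ := h
  apply t8_congr
  have e : x = (((cp y).1 + 8 * (cp t).1 : ℤ) : 𝓞 K) + (((cp y).2 + 8 * (cp t).2 : ℤ) : 𝓞 K) * wO := by
    have h1 := eq_cp y
    have h2 := eq_cp t
    push_cast
    linear_combination ht + h1 + 8 * h2
  have h1 := Nz_coords ((cp y).1 + 8 * (cp t).1) ((cp y).2 + 8 * (cp t).2)
  rw [← e] at h1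
  have h2 := Nz_coords (cp y).1 (cp y).2
  rw [← eq_cp y] at h2
  have h3 : (Nz x : ℤ) = Nz y + 8 * (2 * (cp y).1 * (cp t).1 + 8 * (cp t).1 ^ 2 -
      (cp y).1 * (cp t).2 - (cp t).1 * (cp y).2 - 8 * (cp t).1 * (cp t).2 +
      2 * (cp y).2 * (cp t).2 + 8 * (cp t).2 ^ 2) := by
    rw [h1, h2]
    ring
  omega

/-- The supplementary law for `2`. -/
theorem qs_two (q : Pq) : qs q 2 = sgz (tw2 q.1) := by
  have hodd := Nz_odd q.inP
  have h2 : ¬ q.1 ∣ 2 := by
    intro h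
    have h1 := SqF.Nz_dvd h
    rw [SqF.Nz_two] at h1
    have h4 : Nz q.1 ≤ 4 := Nat.le_of_dvd (by norm_num) h1
    have h5 := q.inP.Nz_mod
    have h6 := Nz_two_le q.prime
    omega
  let _ : Field (RF q) := Ideal.Quotient.field _
  let _ : Fintype (RF q) := Fintype.ofFinite _
  have hcard : Fintype.card (RF q) = Nz q.1 := by rw [← card_RF, Nat.card_eq_fintype_card]
  have h3 : IsSquare (Ideal.Quotient.mk (Ideal.span {q.1}) (2 : 𝓞 K)) ↔
      Nz q.1 % 8 ≠ 3 ∧ Nz q.1 % 8 ≠ 5 := by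
    have h4 := FiniteField.isSquare_two_iff (F := RF q)
    rw [hcard] at h4
    rw [← h4, map_ofNat]
  unfold sgz tw2 t8
  by_cases h4 : Nz q.1 % 8 = 1 ∨ Nz q.1 % 8 = 7
  · rw [if_pos h4, if_pos rfl]
    have h5 : IsSquare (Ideal.Quotient.mk (Ideal.span {q.1}) (2 : 𝓞 K)) := by
      rw [h3]
      omega
    unfold qs
    rw [if_neg h2, if_pos h5]
  · rw [if_neg h4, if_neg (by decide)]
    have h5 : ¬ IsSquare (Ideal.Quotient.mk (Ideal.span {q.1}) (2 : 𝓞 K)) := by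
      rw [h3]
      omega
    unfold qs
    rw [if_neg h2, if_neg h5]

/-- The system of the primary primes with the symbol of `2`. -/
def qE : DatE Pq where
  toDat := qd
  g q := tw2 q.1

theorem tw2_DD (S : Finset Pq) : tw2 (DD S) = ∑ q ∈ S, qE.g q := by
  induction S using Finset.induction_on with
  | empty =>
    rw [DD_empty, tw2_one, sum_empty]
  | insert q S hq ih =>
    rw [DD_insert hq, tw2_mul q.inP (DD_inP S), ih, sum_insert hq]
    rfl

open Classical in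
/-- The quadratic character attached to `T`, `c` and `d`, on the normalised elements. -/
def chE (T : Finset Pq) (c : F4) (d : ZMod 2) (x : 𝓞 K) : ℝ :=
  if InP x then (chi T x : ℝ) * sg (F4.tr (c * red (half x)) + d * tw2 x) else 0

theorem chE_of {T : Finset Pq} {c : F4} {d : ZMod 2} {x : 𝓞 K} (h : InP x) :
    chE T c d x = (chi T x : ℝ) * sg (F4.tr (c * red (half x)) + d * tw2 x) := if_pos h

theorem chE_of_not {T : Finset Pq} {c : F4} {d : ZMod 2} {x : 𝓞 K} (h : ¬ InP x) :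
    chE T c d x = 0 := if_neg h

theorem chE_mulP (T : Finset Pq) (c : F4) (d : ZMod 2) : MulP (chE T c d) where
  one := by
    rw [chE_of inP_one, chi_one, cls_one, mul_zero, tr_zero, tw2_one, mul_zero, add_zero, sg_zero]
    norm_num
  mul x y hx hy := by
    have e : F4.tr (c * red (half (x * y))) + d * tw2 (x * y) =
        (F4.tr (c * red (half x)) + d * tw2 x) + (F4.tr (c * red (half y)) + d * tw2 y) := by
      rw [cls_mul hx.two hy.two, mul_add, F4.tr_add, tw2_mul hx hy, mul_add]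
      abel
    rw [chE_of hx, chE_of hy, chE_of (hx.mul hy), chi_mul, e, sg_add]
    push_cast
    ring
  zero x hx := chE_of_not hx
  le x := by
    by_cases hx : InP x
    · rw [chE_of hx, abs_mul, abs_sg, mul_one]
      rcases chi_sq_or T x with h | h | h <;> rw [h] <;> norm_num
    · rw [chE_of_not hx]
      norm_num

theorem chE_q (T : Finset Pq) (c : F4) (d : ZMod 2) (q : Pq) : chE T c d q.1 = qE.chE T c d q := by
  rw [chE_of q.inP]
  unfold DatE.chE
  split_ifs with h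
  · have h1 : chi T q.1 = 0 := chi_eq_zero_iff.2 ⟨q, h, dvd_refl _⟩
    rw [h1]
    simp
  · have e : F4.tr (c * qE.a q) + d * qE.g q + ∑ p ∈ T, qE.s q p =
        (F4.tr (c * red (half q.1)) + d * tw2 q.1) + ∑ p ∈ T, qd.s q p := rfl
    rw [e, sg_add (F4.tr _ + _), chi_prime h, ← sg_eq_sgz, mul_comm]

theorem chE_congr {T : Finset Pq} {c : F4} {d : ZMod 2} {x y : 𝓞 K}
    (h : 8 * s3 * DD T ∣ x - y) : chE T c d x = chE T c d y := by
  have h1 : 2 * s3 ∣ x - y := dvd_trans ⟨4 * DD T, by ring⟩ h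
  have h2 : DD T ∣ x - y := dvd_trans ⟨8 * s3, by ring⟩ h
  have h3 : (4 : 𝓞 K) ∣ x - y := dvd_trans ⟨2 * s3 * DD T, by ring⟩ h
  have h4 : (8 : 𝓞 K) ∣ x - y := dvd_trans ⟨s3 * DD T, by ring⟩ h
  by_cases hx : InP x
  · have hy : InP y := (inP_congr h1).1 hx
    rw [chE_of hx, chE_of hy, chi_congr h2, cls_congr hx.two h3, tw2_congr h4]
  · have hy : ¬ InP y := fun hy => hx ((inP_congr h1).2 hy)
    rw [chE_of_not hx, chE_of_not hy]

theorem chE_per (T : Finset Pq) (c : F4) (d : ZMod 2) (x y : 𝓞 K) :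
    chE T c d (x + 8 * s3 * DD T * y) = chE T c d x :=
  chE_congr ⟨y, by ring⟩

/-- `DD T` is prime to `8 s3`. -/
theorem isCoprime_DD8 (T : Finset Pq) : IsCoprime (8 * s3) (DD T) := by
  have h1 := isCoprime_DD T
  have h2 : IsCoprime (4 : 𝓞 K) (DD T) := h1.of_mul_left_left
  have h4 : IsCoprime (2 : 𝓞 K) (DD T) := by
    have e : (4 : 𝓞 K) = 2 * 2 := by norm_num
    rw [e] at h2
    exact h2.of_mul_left_left
  have e : (8 : 𝓞 K) * s3 = 2 * (4 * s3) := by ring
  rw [e]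
  exact h4.mul_left h1

/-- The normalised elements take all values of the class and the symbol of `2`. -/
theorem exists_base (a : F4) (g : ZMod 2) : ∃ b : 𝓞 K, red (half (1 + 2 * (s3 * b))) = a ∧
    tw2 (1 + 2 * (s3 * b)) = g := by
  have hs : ∀ m n : ℤ, s3 * ((m : 𝓞 K) + n * wO) = ((m - 2 * n : ℤ) : 𝓞 K) +
      ((2 * m - n : ℤ) : 𝓞 K) * wO := by
    intro m n
    unfold s3
    push_cast
    linear_combination (2 * n : 𝓞 K) * wO_quad
  have hred : ∀ m n : ℤ, red (half (1 + 2 * (s3 * ((m : 𝓞 K) + n * wO)))) =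
      ⟨((m - 2 * n : ℤ) : ZMod 2), ((2 * m - n : ℤ) : ZMod 2)⟩ := by
    intro m n
    rw [half_eq, hs]
    change (⟨_, _⟩ : F4) = _
    rw [cp_coords]
  have hN : ∀ m n : ℤ, (Nz (1 + 2 * (s3 * ((m : 𝓞 K) + n * wO))) : ℤ) =
      (1 + 2 * (m - 2 * n)) ^ 2 - (1 + 2 * (m - 2 * n)) * (2 * (2 * m - n)) +
        (2 * (2 * m - n)) ^ 2 := by
    intro m n
    rw [← Nz_coords]
    congr 2
    rw [hs]
    push_cast
    ring
  have key : ∀ (m n : ℤ) (N : ℕ), (1 + 2 * (m - 2 * n)) ^ 2 - (1 + 2 * (m - 2 * n)) *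
      (2 * (2 * m - n)) + (2 * (2 * m - n)) ^ 2 = (N : ℤ) →
      tw2 (1 + 2 * (s3 * ((m : 𝓞 K) + n * wO))) = t8 N := by
    intro m n N h
    unfold tw2
    congr 1
    have := (hN m n).trans h
    exact_mod_cast this
  obtain ⟨a1, a2⟩ := a
  have main : ∀ (m n : ℤ) (N : ℕ), (1 + 2 * (m - 2 * n)) ^ 2 - (1 + 2 * (m - 2 * n)) *
      (2 * (2 * m - n)) + (2 * (2 * m - n)) ^ 2 = (N : ℤ) →
      ((m - 2 * n : ℤ) : ZMod 2) = a1 → ((2 * m - n : ℤ) : ZMod 2) = a2 → t8 N = g →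
      ∃ b : 𝓞 K, red (half (1 + 2 * (s3 * b))) = ⟨a1, a2⟩ ∧ tw2 (1 + 2 * (s3 * b)) = g := by
    intro m n N h1 h2 h3 h4
    exact ⟨(m : 𝓞 K) + n * wO, by rw [hred, h2, h3], by rw [key m n N h1, h4]⟩
  have h01 : ∀ x : ZMod 2, x = 0 ∨ x = 1 := by decide
  rcases h01 a1 with rfl | rfl <;> rcases h01 a2 with rfl | rfl <;> rcases h01 g with rfl | rfl
  · exact main 0 0 1 (by norm_num) (by decide) (by decide) (by decide)
  · exact main 0 2 37 (by norm_num) (by decide) (by decide) (by decide)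
  · exact main 0 1 7 (by norm_num) (by decide) (by decide) (by decide)
  · exact main 0 3 91 (by norm_num) (by decide) (by decide) (by decide)
  · exact main 1 2 25 (by norm_num) (by decide) (by decide) (by decide)
  · exact main 1 0 13 (by norm_num) (by decide) (by decide) (by decide)
  · exact main 1 1 7 (by norm_num) (by decide) (by decide) (by decide)
  · exact main 1 3 67 (by norm_num) (by decide) (by decide) (by decide)

/-- Existence of a unit modulo `8 s3 DD T` with given class, symbol of `2` and residues. -/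
theorem exists_resE (T : Finset Pq) (a : F4) (g2 : ZMod 2) (g : Pq → 𝓞 K)
    (hg : ∀ p ∈ T, ¬ p.1 ∣ g p) :
    ∃ u : 𝓞 K, InP u ∧ red (half u) = a ∧ tw2 u = g2 ∧ (∀ p ∈ T, p.1 ∣ u - g p) ∧
      ∃ v w : 𝓞 K, u * v = 1 + 8 * s3 * DD T * w := by
  obtain ⟨r, hr⟩ := crt T g
  obtain ⟨b, hb, hb2⟩ := exists_base a g2
  obtain ⟨α, β, hαβ⟩ := isCoprime_DD8 T
  have hu : 2 * s3 ∣ (r * (α * (8 * s3)) + (1 + 2 * (s3 * b)) * (β * DD T)) - 1 := by
    refine ⟨4 * r * α + b * (β * DD T) - 4 * α, ?_⟩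
    linear_combination hαβ
  have h8 : (8 : 𝓞 K) ∣ (r * (α * (8 * s3)) + (1 + 2 * (s3 * b)) * (β * DD T)) -
      (1 + 2 * (s3 * b)) := by
    refine ⟨r * α * s3 - (1 + 2 * (s3 * b)) * α * s3, ?_⟩
    linear_combination (1 + 2 * (s3 * b)) * hαβ
  have hcls : red (half (r * (α * (8 * s3)) + (1 + 2 * (s3 * b)) * (β * DD T))) = a := by
    have h1 : (4 : 𝓞 K) ∣ (r * (α * (8 * s3)) + (1 + 2 * (s3 * b)) * (β * DD T)) -
        (1 + 2 * (s3 * b)) := dvd_trans ⟨2, by norm_num⟩ h8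
    rw [cls_congr ((dvd_mul_right _ _).trans hu) h1, hb]
  have htw : tw2 (r * (α * (8 * s3)) + (1 + 2 * (s3 * b)) * (β * DD T)) = g2 := by
    rw [tw2_congr h8, hb2]
  have hres : ∀ p ∈ T, p.1 ∣ (r * (α * (8 * s3)) + (1 + 2 * (s3 * b)) * (β * DD T)) - g p := by
    intro p hp
    have h1 : p.1 ∣ DD T := dvd_DD.2 hp
    have h2 : p.1 ∣ r - g p := hr p hp
    have h3 := dvd_add h2 (Dvd.dvd.mul_left h1 ((1 + 2 * (s3 * b)) * β - r * β))
    have e : r - g p + ((1 + 2 * (s3 * b)) * β - r * β) * DD T =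
        (r * (α * (8 * s3)) + (1 + 2 * (s3 * b)) * (β * DD T)) - g p := by
      linear_combination -r * hαβ
    rwa [e] at h3
  obtain ⟨u, hue⟩ : ∃ u : 𝓞 K, u = r * (α * (8 * s3)) + (1 + 2 * (s3 * b)) * (β * DD T) :=
    ⟨_, rfl⟩
  rw [← hue] at hu hcls hres htw
  refine ⟨u, hu, hcls, htw, hres, ?_⟩
  have hc1 : IsCoprime u (8 * s3) := by
    obtain ⟨t, ht⟩ := hu
    have h1 : IsCoprime u (2 * s3) := ⟨1, -t, by linear_combination ht⟩
    have h2 : IsCoprime u (2 : 𝓞 K) := h1.of_mul_right_left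
    have e : (8 : 𝓞 K) * s3 = 2 * (2 * (2 * s3)) := by ring
    rw [e]
    exact h2.mul_right (h2.mul_right h1)
  have hc2 : IsCoprime u (DD T) := by
    unfold DD
    apply IsCoprime.prod_right
    intro p hp
    rw [isCoprime_comm]
    refine (p.prime.irreducible.coprime_iff_not_dvd).2 ?_
    intro h
    apply hg p hp
    have := dvd_sub h (hres p hp)
    rwa [sub_sub_cancel] at this
  obtain ⟨v, w, hvw⟩ := hc1.mul_right hc2
  exact ⟨v, -w, by linear_combination hvw⟩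

theorem chE_exists (T : Finset Pq) (c : F4) (d : ZMod 2) (h : T ≠ ∅ ∨ c ≠ 0 ∨ d ≠ 0) :
    ∃ u v w : 𝓞 K, u * v = 1 + 8 * s3 * DD T * w ∧ ∀ z, chE T c d (u * z) = - chE T c d z := by
  classical
  -- it is enough to find `u` in `P` with value `-1`
  obtain ⟨u, hu, ⟨v, w, hvw⟩, hval⟩ : ∃ u : 𝓞 K, InP u ∧
      (∃ v w : 𝓞 K, u * v = 1 + 8 * s3 * DD T * w) ∧
      (chi T u : ℝ) * sg (F4.tr (c * red (half u)) + d * tw2 u) = -1 := by
    by_cases hT : T = ∅
    · have hc : c ≠ 0 ∨ d ≠ 0 := by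
        rcases h with h1 | h1
        · exact absurd hT h1
        · exact h1
      have key : ∀ (c : F4) (d : ZMod 2), (c ≠ 0 ∨ d ≠ 0) →
          ∃ (a : F4) (g : ZMod 2), F4.tr (c * a) + d * g = 1 := by decide
      obtain ⟨a, g, ha⟩ := key c d hc
      obtain ⟨u, h1, h2, h3, -, h4⟩ := exists_resE T a g (fun _ => 1) (by rw [hT]; simp)
      refine ⟨u, h1, h4, ?_⟩
      rw [h2, h3, ha, hT, chi_empty]
      have : sg 1 = -1 := if_neg (by decide)
      rw [this]
      norm_num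
    · obtain ⟨p, hp⟩ := Finset.nonempty_iff_ne_empty.2 hT
      obtain ⟨g, hg⟩ := exists_nonres p
      obtain ⟨u, h1, h2, h2', h3, h4⟩ := exists_resE T 0 0 (fun q => if q = p then g else 1) (by
        intro q _
        by_cases hqp : q = p
        · rw [if_pos hqp, hqp]
          intro hd
          rw [qs_of_dvd hd] at hg
          norm_num at hg
        · rw [if_neg hqp]
          exact fun hd => q.prime.not_unit (isUnit_of_dvd_one hd))
      refine ⟨u, h1, h4, ?_⟩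
      rw [h2, h2', mul_zero, mul_zero, tr_zero, add_zero, sg_zero, mul_one]
      have h5 : chi T u = -1 := by
        unfold chi
        rw [← mul_prod_erase _ _ hp]
        have h6 : qs p u = -1 := by
          rw [qs_congr (h3 p hp)]
          simp [hg]
        have h7 : ∏ q ∈ T.erase p, qs q u = 1 := by
          apply prod_eq_one
          intro q hq
          rw [mem_erase] at hq
          rw [qs_congr (h3 q hq.2)]
          simp [hq.1, qs_one]
        rw [h6, h7]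
        norm_num
      rw [h5]
      norm_num
  refine ⟨u, v, w, hvw, fun z => ?_⟩
  by_cases hz : InP z
  · have e : F4.tr (c * red (half (u * z))) + d * tw2 (u * z) =
        (F4.tr (c * red (half u)) + d * tw2 u) + (F4.tr (c * red (half z)) + d * tw2 z) := by
      rw [cls_mul hu.two hz.two, mul_add, F4.tr_add, tw2_mul hu hz, mul_add]
      abel
    rw [chE_of hz, chE_of (hu.mul hz), chi_mul, e, sg_add]
    push_cast
    linear_combination ((chi T z : ℝ) * sg (F4.tr (c * red (half z)) + d * tw2 z)) * hval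
  · have h1 : ¬ InP (u * z) := fun h1 => hz (hu.of_mul h1)
    rw [chE_of_not hz, chE_of_not h1, neg_zero]

theorem Nz_eight : Nz 8 = 64 := by
  have h := Nz_coords 8 0
  have e : ((8 : ℤ) : 𝓞 K) + ((0 : ℤ) : 𝓞 K) * wO = 8 := by push_cast; ring
  rw [e] at h
  norm_num at h
  exact_mod_cast h

theorem Nz_mod8 (T : Finset Pq) : Nz (8 * s3 * DD T) = 192 * nm T := by
  rw [Nz_mul, Nz_mul, Nz_eight, Pool.Agent.Lib.MP_1a91b9_ntH.Nz_s3, Nz_DD]

theorem chE_sum (T : Finset Pq) (c : F4) (d : ZMod 2) (h : T ≠ ∅ ∨ c ≠ 0 ∨ d ≠ 0) (X : ℕ)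
    (hX : 1 ≤ X) :
    |∑ x ∈ discE (𝓞 K) X, chE T c d x| ≤ 20 * Real.sqrt ((192 * nm T : ℕ) * X) := by
  obtain ⟨u, v, w, h1, h2⟩ := chE_exists T c d h
  have h3 := sum_discE' (8 * s3 * DD T) (by
    intro h0
    have h4 := Nz_mod8 T
    rw [h0] at h4
    have h5 := one_le_nm T
    have h6 : Nz 0 = 0 := Nz_eq_zero.2 rfl
    omega) (chE T c d) (chE_mulP T c d).le (chE_per T c d) u v w h1 h2 X hX
  rw [nE_eq, Nz_mod8] at h3
  exact h3

/-- The Euler products of the nontrivial characters. -/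
theorem qE_cb : ∃ C, qE.CBE C := by
  obtain ⟨C, hC, hmain⟩ := charB_of
  refine ⟨C * (1 + Real.log 192), fun T c d h => ?_⟩
  have h1 := hmain (chE T c d) (192 * nm T) (chE_mulP T c d) (by
    have := one_le_nm T
    omega) (fun X hX => chE_sum T c d h X hX)
  have h2 : (fun q : Pq => chE T c d q.1) = qE.chE T c d := by
    funext q
    exact chE_q T c d q
  rw [h2] at h1
  refine h1.mono ?_
  have h3 : (1 : ℝ) ≤ nm T := by exact_mod_cast one_le_nm T
  have h4 : Real.log ((192 * nm T : ℕ) : ℝ) = Real.log 192 + Real.log (nm T) := by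
    push_cast
    rw [Real.log_mul (by norm_num) (by positivity)]
  rw [h4]
  have h5 : 0 ≤ Real.log (nm T) := Real.log_nonneg h3
  have h6 : 0 ≤ Real.log 192 := Real.log_nonneg (by norm_num)
  have h7 : 0 ≤ C * (Real.log 192 * Real.log (nm T)) := by positivity
  nlinarith

theorem chE_DD (c : F4) (d : ZMod 2) (S : Finset Pq) :
    chE ∅ c d (DD S) = sg (F4.tr (c * qE.A S) + d * ∑ q ∈ S, qE.g q) := by
  unfold chE
  rw [if_pos (DD_inP S), cls_DD, tw2_DD]
  have : chi ∅ (DD S) = 1 := prod_empty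
  rw [this]
  push_cast
  rw [one_mul]
  rfl

/-- A multiplicative function with small sums over the discs has mean value zero on the squarefree
elements. -/
theorem mean_zeroP (F : 𝓞 K → ℝ) (hF : MulP F) {B : ℝ} (hB : 0 ≤ B)
    (hsum : ∀ X : ℕ, 1 ≤ X → |∑ x ∈ discE (𝓞 K) X, F x| ≤ B * Real.sqrt X) (ε : ℝ) (hε : 0 < ε) :
    ∃ X₀ : ℕ, ∀ X : ℕ, X₀ ≤ X → |∑ S ∈ Sx Pq X, F (DD S)| ≤ ε * X := by
  obtain ⟨s, hs⟩ := sqf_diff F hF (ε / 2) (by positivity)
  obtain ⟨M, hM⟩ := exists_nat_gt ((2 * (2 ^ s.card * B) / ε) ^ 2)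
  refine ⟨M, fun X hX => ?_⟩
  have h1 := hs X
  have hnn : (0 : ℝ) ≤ 2 * (2 ^ s.card * B) / ε := by positivity
  have h2 : |∑ T ∈ s.powerset, (-1 : ℝ) ^ T.card * F (DD T ^ 2) *
      ∑ x ∈ discE (𝓞 K) (X / nm T ^ 2), F x| ≤ 2 ^ s.card * B * Real.sqrt X := by
    refine (abs_sum_le_sum_abs _ _).trans ?_
    have h3 : ∀ T ∈ s.powerset, |(-1 : ℝ) ^ T.card * F (DD T ^ 2) *
        ∑ x ∈ discE (𝓞 K) (X / nm T ^ 2), F x| ≤ B * Real.sqrt X := by
      intro T _
      rw [abs_mul, abs_mul, abs_pow, abs_neg, abs_one, one_pow, one_mul]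
      have h4 : |F (DD T ^ 2)| ≤ 1 := hF.le _
      have h5 : |∑ x ∈ discE (𝓞 K) (X / nm T ^ 2), F x| ≤ B * Real.sqrt X := by
        rcases Nat.eq_zero_or_pos (X / nm T ^ 2) with h0 | h0
        · rw [h0, SqF.sum_disc_zero hF, abs_zero]
          positivity
        · refine (hsum _ h0).trans ?_
          gcongr
          exact Nat.div_le_self X _
      calc |F (DD T ^ 2)| * |∑ x ∈ discE (𝓞 K) (X / nm T ^ 2), F x|
          ≤ 1 * (B * Real.sqrt X) := mul_le_mul h4 h5 (abs_nonneg _) zero_le_one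
        _ = _ := one_mul _
    refine (sum_le_sum h3).trans ?_
    rw [sum_const, card_powerset, nsmul_eq_mul]
    push_cast
    rw [mul_assoc]
  have h6 : 2 * (2 ^ s.card * B) / ε ≤ Real.sqrt X := by
    apply Real.le_sqrt_of_sq_le
    have : (M : ℝ) ≤ X := by exact_mod_cast hX
    linarith
  have h7 : 2 ^ s.card * B * Real.sqrt X ≤ ε / 2 * X := by
    rw [div_le_iff₀ hε] at h6
    have h8 : Real.sqrt X * Real.sqrt X = X := Real.mul_self_sqrt (Nat.cast_nonneg X)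
    nlinarith [Real.sqrt_nonneg (X : ℝ)]
  have h10 := abs_le.1 h1
  have h11 := abs_le.1 h2
  rw [abs_le]
  constructor <;> linarith

/-- The mean values of the nontrivial characters modulo 8 are zero. -/
theorem qE_h3 : qE.H3E := by
  intro c d hcd ε hε
  obtain ⟨X₀, h⟩ := mean_zeroP (chE ∅ c d) (chE_mulP ∅ c d)
    (B := 20 * Real.sqrt 192) (by positivity) (fun X hX => by
      refine (chE_sum ∅ c d (Or.inr hcd) X hX).trans ?_
      rw [nm_empty, mul_one, mul_assoc, ← Real.sqrt_mul (by norm_num)]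
      push_cast
      exact le_rfl) ε hε
  refine ⟨X₀, fun X hX => ?_⟩
  have h1 := h X hX
  simp only [chE_DD] at h1
  exact h1

end

end Pool.Agent.Lib.MP_1a91b9_ntE
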