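import Pool.Agent.Lib.MP_1a91b9_ntH2.R.DensityC

/-!
# MP_1a91b9_nt (TwistDensity), all classes modulo 4 not divisible by 4: transfer of the density

The squarefree elements are the `w^j x` and the `2 w^j x`, `j < 3`, `x` squarefree and congruent to `1`
modulo `2`, with class `c`. A lower bound for the proportion in each of the 24 families gives the same
lower bound for the proportion among all the squarefree elements with a condition modulo `4`.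
-/

set_option autoImplicit false

namespace Pool.Agent.Lib.MP_1a91b9_ntE

open NumberField Finset Pool.Agent.Lib.MP_1a91b9_ntT Pool.Agent.Lib.MP_1a91b9_ntH
  Pool.Agent.Lib.MP_1a91b9_ntH2

noncomputable section

namespace DensA

open DensC (Cl m card card' card_ge)

/-- The density for the class `c`, with a general condition `G`. -/
theorem main (c : F4) (G : Finset Pq → Prop) [DecidablePred G] (κ κ' : ℝ) (hκ : κ' < κ)
    (h : ∀ d : F4, ∀ ε : ℝ, 0 < ε → ∃ X₀ : ℕ, ∀ X : ℕ, X₀ ≤ X →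
      κ * (((Sx Pq X).filter fun S => qd.A S = d).card : ℝ) - ε * X ≤
        (((Sx Pq X).filter fun S => qd.A S = d ∧ G S).card : ℝ))
    (Pr : 𝓞 K → Prop) (hPr : ∀ S : Finset Pq, G S → Pr (dlc c S)) :
    ∀ᶠ X : ℝ in Filter.atTop,
      0 < Nat.card {δ : 𝓞 K // Cl c δ ∧ (Nz δ : ℝ) ≤ X} ∧
      κ' * (Nat.card {δ : 𝓞 K // Cl c δ ∧ (Nz δ : ℝ) ≤ X} : ℝ) ≤
        (Nat.card {δ : 𝓞 K // Cl c δ ∧ (Nz δ : ℝ) ≤ X ∧ Pr δ} : ℝ) := by
  classical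
  obtain ⟨c₀, hc₀, h0⟩ := card_ge c
  have hε : 0 < (κ - κ') * c₀ / 4 := by
    have : 0 < κ - κ' := by linarith
    positivity
  choose X₀ hX₀ using fun d : F4 => h d _ hε
  filter_upwards [h0, Filter.eventually_ge_atTop ((3 * (∑ d, X₀ d) + 3 : ℕ) : ℝ)] with X h1 hX
  have hX0 : 0 ≤ X := (Nat.cast_nonneg _).trans hX
  have hn : 3 * (∑ d, X₀ d) + 3 ≤ ⌊X⌋₊ := Nat.le_floor hX
  refine ⟨?_, ?_⟩
  · have hX1 : (0 : ℝ) < X := by
      have h2 : ((3 : ℕ) : ℝ) ≤ X := le_trans (by exact_mod_cast (by omega)) hX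
      norm_num at h2
      linarith
    have h2 : (0 : ℝ) < Nat.card {δ : 𝓞 K // Cl c δ ∧ (Nz δ : ℝ) ≤ X} :=
      lt_of_lt_of_le (by positivity) h1
    exact_mod_cast h2
  have h2 : ∀ d : F4, κ * (((Sx Pq (m c d ⌊X⌋₊)).filter fun S => qd.A S = d).card : ℝ) -
      (κ - κ') * c₀ / 4 * X ≤
      (((Sx Pq (m c d ⌊X⌋₊)).filter fun S => qd.A S = d ∧ Pr (dlc c S)).card : ℝ) := by
    intro d
    have h3 : X₀ d ≤ ∑ d, X₀ d := single_le_sum (fun _ _ => Nat.zero_le _) (mem_univ d)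
    have h4 : X₀ d ≤ m c d ⌊X⌋₊ := by
      have := DensC.le_m c d ⌊X⌋₊
      omega
    have h5 := hX₀ d _ h4
    have h6 : ((m c d ⌊X⌋₊ : ℕ) : ℝ) ≤ X :=
      (Nat.le_floor_iff hX0).1 (DensC.m_le _ _ _)
    have h7 : (κ - κ') * c₀ / 4 * ((m c d ⌊X⌋₊ : ℕ) : ℝ) ≤ (κ - κ') * c₀ / 4 * X :=
      mul_le_mul_of_nonneg_left h6 hε.le
    have h8 : (((Sx Pq (m c d ⌊X⌋₊)).filter fun S => qd.A S = d ∧ G S).card : ℝ) ≤
        (((Sx Pq (m c d ⌊X⌋₊)).filter fun S => qd.A S = d ∧ Pr (dlc c S)).card : ℝ) := by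
      refine Nat.cast_le.2 (card_le_card ?_)
      intro S hS
      rw [mem_filter] at hS ⊢
      exact ⟨hS.1, hS.2.1, hPr S hS.2.2⟩
    linarith
  have h9 := sum_le_sum fun (d : F4) (_ : d ∈ (univ : Finset F4)) => h2 d
  rw [sum_sub_distrib, ← mul_sum, sum_const, card_univ, F4.card_F4, nsmul_eq_mul] at h9
  rw [card c X hX0 Pr]
  have h10 : (∑ d : F4, (((Sx Pq (m c d ⌊X⌋₊)).filter fun S => qd.A S = d).card : ℝ)) =
      (Nat.card {δ : 𝓞 K // Cl c δ ∧ (Nz δ : ℝ) ≤ X} : ℝ) := by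
    rw [card' c X hX0]
    push_cast
    rfl
  rw [h10] at h9
  push_cast
  have h11 : (κ - κ') * (c₀ * X) ≤ (κ - κ') *
      (Nat.card {δ : 𝓞 K // Cl c δ ∧ (Nz δ : ℝ) ≤ X} : ℝ) :=
    mul_le_mul_of_nonneg_left h1 (by linarith)
  push_cast at h9
  linarith

/-- The indices of the families. -/
abbrev Idx := Bool × Fin 3 × F4

/-- `x`, `w x`, `w² x` and `2 x`, `2 w x`, `2 w² x`. -/
def ph (i : Idx) (x : 𝓞 K) : 𝓞 K := (if i.1 then 2 else 1) * (wO ^ (i.2.1 : ℕ) * x)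

theorem Nz_two : Nz 2 = 4 := by
  have := Nz_coords 2 0
  simp at this
  exact_mod_cast this

theorem Nz_ph (i : Idx) (x : 𝓞 K) : Nz (ph i x) = (if i.1 then 4 else 1) * Nz x := by
  unfold ph
  rw [Nz_mul, Nz_pow_w_mul]
  split_ifs
  · rw [Nz_two]
  · rw [Nz_one]

theorem not_two_dvd (j : ℕ) {x : 𝓞 K} (h : (2 : 𝓞 K) ∣ x - 1) : ¬ (2 : 𝓞 K) ∣ wO ^ j * x := by
  rw [DensC.dvd_unit_mul (isUnit_wO.pow j)]
  exact not_two_dvd_of_sub_one h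

theorem red_one_of {x : 𝓞 K} (h : (2 : 𝓞 K) ∣ x - 1) : red x = 1 := by
  rw [two_dvd_iff, map_sub, map_one, sub_eq_zero] at h
  exact h

theorem two_ne : (2 : 𝓞 K) ≠ 0 := two_ne_zero

theorem ph_inj {i i' : Idx} {x x' : 𝓞 K} (hx : Cl i.2.2 x) (hx' : Cl i'.2.2 x')
    (h : ph i x = ph i' x') : i = i' ∧ x = x' := by
  obtain ⟨b, j, c⟩ := i
  obtain ⟨b', j', c'⟩ := i'
  obtain ⟨-, h2, hc⟩ := hx
  obtain ⟨-, h2', hc'⟩ := hx'
  unfold ph at h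
  dsimp only at h hc hc'
  -- the parity
  have hb : b = b' ∧ wO ^ (j : ℕ) * x = wO ^ (j' : ℕ) * x' := by
    cases b <;> cases b'
    · simpa using h
    · exfalso
      simp only [Bool.false_eq_true, if_false, if_true, one_mul] at h
      exact not_two_dvd j h2 ⟨_, h⟩
    · exfalso
      simp only [Bool.false_eq_true, if_false, if_true, one_mul] at h
      exact not_two_dvd j' h2' ⟨_, h.symm⟩
    · simp only [if_true] at h
      exact ⟨rfl, mul_left_cancel₀ two_ne h⟩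
  obtain ⟨rfl, h3⟩ := hb
  -- the power of `w`
  have h4 := congrArg red h3
  rw [map_mul, map_mul, map_pow, map_pow, red_w, red_one_of h2, red_one_of h2', mul_one,
    mul_one] at h4
  have key : ∀ j j' : Fin 3, F4.w ^ (j : ℕ) = F4.w ^ (j' : ℕ) → j = j' := by decide
  obtain rfl := key _ _ h4
  have h5 : x = x' := (isUnit_wO.pow _).mul_left_cancel h3
  refine ⟨?_, h5⟩
  rw [← hc, ← hc', h5]

theorem exists_odd {δ : 𝓞 K} (hs : Squarefree δ) (h2 : ¬ (2 : 𝓞 K) ∣ δ) :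
    ∃ (j : Fin 3) (c : F4) (x : 𝓞 K), Cl c x ∧ δ = wO ^ (j : ℕ) * x := by
  obtain ⟨j, hj⟩ := exists_pow_w h2
  have hw : IsUnit (wO ^ (2 * j)) := isUnit_wO.pow _
  refine ⟨⟨j % 3, Nat.mod_lt _ (by norm_num)⟩, _, wO ^ (2 * j) * δ,
    ⟨squarefree_unit_mul hw hs, hj, rfl⟩, ?_⟩
  have e : wO ^ (j % 3) * wO ^ (2 * j) = 1 := by
    have h3 : wO ^ (j % 3) = wO ^ j := by
      conv_rhs => rw [← Nat.div_add_mod j 3, pow_add, pow_mul, wO_cube, one_pow, one_mul]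
    rw [h3, ← pow_add, show j + 2 * j = 3 * j by ring, pow_mul, wO_cube, one_pow]
  rw [← mul_assoc]
  change δ = wO ^ (j % 3) * wO ^ (2 * j) * δ
  rw [e, one_mul]

theorem exists_ph {δ : 𝓞 K} (hs : Squarefree δ) : ∃ (i : Idx) (x : 𝓞 K), Cl i.2.2 x ∧ δ = ph i x := by
  by_cases h2 : (2 : 𝓞 K) ∣ δ
  · obtain ⟨y, hy⟩ := h2
    have hy2 : ¬ (2 : 𝓞 K) ∣ y := by
      rintro ⟨z, hz⟩
      have h3 : IsUnit (2 : 𝓞 K) := hs 2 ⟨z, by rw [hy, hz]; ring⟩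
      have h4 := isUnit_iff_Nz.1 h3
      rw [Nz_two] at h4
      omega
    have hys : Squarefree y := hs.squarefree_of_dvd ⟨2, by rw [hy]; ring⟩
    obtain ⟨j, c, x, hx, e⟩ := exists_odd hys hy2
    refine ⟨(true, j, c), x, hx, ?_⟩
    unfold ph
    rw [hy, e]
    simp
  · obtain ⟨j, c, x, hx, e⟩ := exists_odd hs h2
    refine ⟨(false, j, c), x, hx, ?_⟩
    unfold ph
    rw [e]
    simp

theorem prime_two : Prime (2 : 𝓞 K) := by
  refine ⟨two_ne, ?_, ?_⟩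
  · intro h
    have h4 := isUnit_iff_Nz.1 h
    rw [Nz_two] at h4
    omega
  · intro a b h
    rw [two_dvd_iff] at h ⊢
    rw [two_dvd_iff]
    rw [map_mul] at h
    have key : ∀ a b : F4, a * b = 0 → a = 0 ∨ b = 0 := by decide
    exact key _ _ h

theorem ph_squarefree {i : Idx} {x : 𝓞 K} (hx : Cl i.2.2 x) : Squarefree (ph i x) := by
  obtain ⟨hs, h2, -⟩ := hx
  have h1 : Squarefree (wO ^ (i.2.1 : ℕ) * x) := squarefree_unit_mul (isUnit_wO.pow _) hs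
  unfold ph
  split_ifs
  · rw [squarefree_mul_iff]
    exact ⟨(prime_two.irreducible.isRelPrime_iff_not_dvd).2 (not_two_dvd _ h2),
      prime_two.squarefree, h1⟩
  · rwa [one_mul]

theorem finite_le (X : ℝ) : Finite {x : 𝓞 K // (Nz x : ℝ) ≤ X} := by
  refine Set.Finite.to_subtype (s := {x : 𝓞 K | (Nz x : ℝ) ≤ X}) ?_
  refine (discE (𝓞 K) ⌊X⌋₊).finite_toSet.subset ?_
  intro x hx
  rw [mem_coe, mem_disc]
  exact Nat.le_floor hx

/-- The bound for the norm. -/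
def Y (i : Idx) (X : ℝ) : ℝ := if i.1 then X / 4 else X

theorem Nz_ph_le (i : Idx) (x : 𝓞 K) (X : ℝ) : (Nz (ph i x) : ℝ) ≤ X ↔ (Nz x : ℝ) ≤ Y i X := by
  rw [Nz_ph, Y]
  split_ifs
  · push_cast
    constructor <;> intro h <;> linarith
  · rw [one_mul]

theorem Y_le (i : Idx) {X : ℝ} (hX : 0 ≤ X) : Y i X ≤ X := by
  unfold Y
  split_ifs
  · linarith
  · exact le_rfl

theorem tendsto_Y (i : Idx) : Filter.Tendsto (Y i) Filter.atTop Filter.atTop := by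
  obtain ⟨b, j, c⟩ := i
  cases b
  · have e : Y (false, j, c) = fun X => X := by
      funext X
      simp [Y]
    rw [e]
    exact Filter.tendsto_id
  · have e : Y (true, j, c) = fun X => X / 4 := by
      funext X
      simp [Y]
    rw [e]
    exact Filter.tendsto_id.atTop_div_const (by norm_num)

/-- The number of the squarefree elements with a property is the sum over the families. -/
theorem card_all (X : ℝ) (P : 𝓞 K → Prop) :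
    Nat.card {δ : 𝓞 K // Squarefree δ ∧ (Nz δ : ℝ) ≤ X ∧ P δ} =
      ∑ i : Idx, Nat.card {x : 𝓞 K // Cl i.2.2 x ∧ (Nz x : ℝ) ≤ Y i X ∧ P (ph i x)} := by
  have hfin : ∀ i : Idx, Finite {x : 𝓞 K // Cl i.2.2 x ∧ (Nz x : ℝ) ≤ Y i X ∧ P (ph i x)} := by
    intro i
    have := finite_le (Y i X)
    exact Finite.of_injective (β := {x : 𝓞 K // (Nz x : ℝ) ≤ Y i X})
      (fun x => ⟨x.1, x.2.2.1⟩) (fun a b h => Subtype.ext (Subtype.mk.inj h))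
  rw [← Nat.card_sigma]
  symm
  refine Nat.card_congr (Equiv.ofBijective
    (fun s => ⟨ph s.1 s.2.1, ph_squarefree s.2.2.1, (Nz_ph_le _ _ _).2 s.2.2.2.1, s.2.2.2.2⟩) ⟨?_, ?_⟩)
  · rintro ⟨i, x, hx, hx2⟩ ⟨i', x', hx', hx2'⟩ h
    have h1 : ph i x = ph i' x' := congrArg Subtype.val h
    obtain ⟨rfl, rfl⟩ := ph_inj hx hx' h1
    rfl
  · rintro ⟨δ, h1, h2, h3⟩
    obtain ⟨i, x, hx, rfl⟩ := exists_ph h1
    exact ⟨⟨i, x, hx, (Nz_ph_le _ _ _).1 h2, h3⟩, rfl⟩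

/-- A representative of the class. -/
theorem exists_lift (c : F4) : ∃ v : 𝓞 K, red v = c := by
  obtain ⟨b, hb⟩ : ∃ b : 𝓞 K, red (half (1 + 2 * b)) = c := by
    obtain ⟨a1, a2⟩ := c
    refine ⟨((a1.val : ℤ) : 𝓞 K) + ((a2.val : ℤ) : 𝓞 K) * wO, ?_⟩
    rw [half_eq]
    change (⟨((cp _).1 : ZMod 2), ((cp _).2 : ZMod 2)⟩ : F4) = _
    rw [cp_coords]
    simp
  rw [half_eq] at hb
  exact ⟨b, hb⟩

/-- The condition modulo `4` is constant on the families. -/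
theorem ph_congr {i : Idx} {x y : 𝓞 K} (hx : (2 : 𝓞 K) ∣ x - 1) (hy : (2 : 𝓞 K) ∣ y - 1)
    (h : red (half x) = red (half y)) : (4 : 𝓞 K) ∣ ph i x - ph i y := by
  have h1 := four_dvd_of_cls hx hy h
  unfold ph
  rw [← mul_sub, ← mul_sub]
  exact Dvd.dvd.mul_left (Dvd.dvd.mul_left h1 _) _

end DensA

open DensA DensC in
/-- **The density among the squarefree elements with a condition `R` modulo `4`**. -/
theorem density_mod4 (R : 𝓞 K → Prop) (hR : ∀ x y : 𝓞 K, (4 : 𝓞 K) ∣ x - y → (R x ↔ R y))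
    (hne : ∃ x, R x ∧ ¬ (4 : 𝓞 K) ∣ x) (κ κ' : ℝ) (hκ : κ' < κ)
    (G1 G2 : F4 → Finset Pq → Prop) [∀ c, DecidablePred (G1 c)] [∀ c, DecidablePred (G2 c)]
    (h1 : ∀ c d : F4, ∀ ε : ℝ, 0 < ε → ∃ X₀ : ℕ, ∀ X : ℕ, X₀ ≤ X →
      κ * (((Sx Pq X).filter fun S => qd.A S = d).card : ℝ) - ε * X ≤
        (((Sx Pq X).filter fun S => qd.A S = d ∧ G1 c S).card : ℝ))
    (h2 : ∀ c d : F4, ∀ ε : ℝ, 0 < ε → ∃ X₀ : ℕ, ∀ X : ℕ, X₀ ≤ X →
      κ * (((Sx Pq X).filter fun S => qd.A S = d).card : ℝ) - ε * X ≤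
        (((Sx Pq X).filter fun S => qd.A S = d ∧ G2 c S).card : ℝ))
    (Pr : 𝓞 K → Prop)
    (hPr1 : ∀ (j : ℕ) (c : F4) (S : Finset Pq), G1 c S → Pr (wO ^ j * dlc c S))
    (hPr2 : ∀ (j : ℕ) (c : F4) (S : Finset Pq), G2 c S → Pr (2 * (wO ^ j * dlc c S))) :
    ∀ᶠ X : ℝ in Filter.atTop,
      κ' ≤ (Nat.card {δ : 𝓞 K // Squarefree δ ∧ R δ ∧ |Algebra.norm ℤ δ| ≤ X ∧ Pr δ} : ℝ) /
        (Nat.card {δ : 𝓞 K // Squarefree δ ∧ R δ ∧ |Algebra.norm ℤ δ| ≤ X} : ℝ) := by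
  classical
  choose v hv using exists_lift
  set J : Finset Idx := univ.filter fun i => R (ph i (1 + 2 * v i.2.2)) with hJ
  have hv2 : ∀ c, (2 : 𝓞 K) ∣ (1 + 2 * v c) - 1 := fun c => ⟨v c, by ring⟩
  have hRi : ∀ (i : Idx) (x : 𝓞 K), Cl i.2.2 x → (R (ph i x) ↔ i ∈ J) := by
    intro i x hx
    rw [hJ, mem_filter, and_iff_right (mem_univ _)]
    refine hR _ _ (ph_congr hx.2.1 (hv2 _) ?_)
    rw [hx.2.2, half_eq, hv]
  -- `J` is not empty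
  have hJne : J.Nonempty := by
    obtain ⟨x, hx, hx4⟩ := hne
    have hodd : ∀ y : 𝓞 K, ¬ (2 : 𝓞 K) ∣ y → ∃ (j : Fin 3) (c : F4),
        (4 : 𝓞 K) ∣ y - wO ^ (j : ℕ) * (1 + 2 * v c) := by
      intro y hy
      obtain ⟨j, hj⟩ := exists_pow_w hy
      refine ⟨⟨j % 3, Nat.mod_lt _ (by norm_num)⟩, red (half (wO ^ (2 * j) * y)), ?_⟩
      have h3 := four_dvd_of_cls hj (hv2 (red (half (wO ^ (2 * j) * y)))) (by rw [half_eq, hv])
      have e : wO ^ (j % 3) * wO ^ (2 * j) = 1 := by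
        have h3 : wO ^ (j % 3) = wO ^ j := by
          conv_rhs => rw [← Nat.div_add_mod j 3, pow_add, pow_mul, Pool.Agent.Lib.MP_1a91b9_ntH2.wO_cube, one_pow, one_mul]
        rw [h3, ← pow_add, show j + 2 * j = 3 * j by ring, pow_mul, Pool.Agent.Lib.MP_1a91b9_ntH2.wO_cube, one_pow]
      have h4 := Dvd.dvd.mul_left h3 (wO ^ (j % 3))
      have e2 : wO ^ (j % 3) * (wO ^ (2 * j) * y - (1 + 2 * v (red (half (wO ^ (2 * j) * y))))) =
          y - wO ^ (j % 3) * (1 + 2 * v (red (half (wO ^ (2 * j) * y)))) := by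
        linear_combination y * e
      rwa [e2] at h4
    by_cases h2 : (2 : 𝓞 K) ∣ x
    · obtain ⟨y, rfl⟩ := h2
      have hy : ¬ (2 : 𝓞 K) ∣ y := by
        rintro ⟨z, rfl⟩
        exact hx4 ⟨z, by ring⟩
      obtain ⟨j, c, h3⟩ := hodd y hy
      refine ⟨(true, j, c), ?_⟩
      rw [hJ, mem_filter, and_iff_right (mem_univ _)]
      refine (hR _ _ ?_).1 hx
      obtain ⟨t, ht⟩ := h3
      refine ⟨2 * t, ?_⟩
      unfold ph
      simp only [if_true]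
      linear_combination 2 * ht
    · obtain ⟨j, c, h3⟩ := hodd x h2
      refine ⟨(false, j, c), ?_⟩
      rw [hJ, mem_filter, and_iff_right (mem_univ _)]
      refine (hR _ _ ?_).1 hx
      unfold ph
      simpa using h3
  -- the numbers
  have hcount : ∀ (X : ℝ) (P : 𝓞 K → Prop),
      Nat.card {δ : 𝓞 K // Squarefree δ ∧ R δ ∧ (Nz δ : ℝ) ≤ X ∧ P δ} =
        ∑ i ∈ J, Nat.card {x : 𝓞 K // Cl i.2.2 x ∧ (Nz x : ℝ) ≤ Y i X ∧ P (ph i x)} := by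
    intro X P
    have e : Nat.card {δ : 𝓞 K // Squarefree δ ∧ R δ ∧ (Nz δ : ℝ) ≤ X ∧ P δ} =
        Nat.card {δ : 𝓞 K // Squarefree δ ∧ (Nz δ : ℝ) ≤ X ∧ (R δ ∧ P δ)} :=
      Nat.card_congr (Equiv.subtypeEquivRight fun δ => by tauto)
    rw [e, card_all X (fun δ => R δ ∧ P δ)]
    rw [← sum_subset (subset_univ J) (f := fun i : Idx =>
      Nat.card {x : 𝓞 K // Cl i.2.2 x ∧ (Nz x : ℝ) ≤ Y i X ∧ (R (ph i x) ∧ P (ph i x))})]
    · refine sum_congr rfl fun i hi => Nat.card_congr (Equiv.subtypeEquivRight fun x => ?_)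
      constructor
      · rintro ⟨a, b, -, d⟩
        exact ⟨a, b, d⟩
      · rintro ⟨a, b, d⟩
        exact ⟨a, b, (hRi i x a).2 hi, d⟩
    · intro i _ hi
      have : IsEmpty {x : 𝓞 K // Cl i.2.2 x ∧ (Nz x : ℝ) ≤ Y i X ∧ (R (ph i x) ∧ P (ph i x))} :=
        ⟨fun x => hi ((hRi i x.1 x.2.1).1 x.2.2.2.1)⟩
      exact Nat.card_of_isEmpty
  have hcount' : ∀ (X : ℝ),
      Nat.card {δ : 𝓞 K // Squarefree δ ∧ R δ ∧ (Nz δ : ℝ) ≤ X} =
        ∑ i ∈ J, Nat.card {x : 𝓞 K // Cl i.2.2 x ∧ (Nz x : ℝ) ≤ Y i X} := by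
    intro X
    have := hcount X (fun _ => True)
    simpa only [and_true] using this
  -- the single families
  have hi : ∀ i : Idx, ∀ᶠ X : ℝ in Filter.atTop,
      0 < Nat.card {δ : 𝓞 K // Cl i.2.2 δ ∧ (Nz δ : ℝ) ≤ Y i X} ∧
      κ' * (Nat.card {δ : 𝓞 K // Cl i.2.2 δ ∧ (Nz δ : ℝ) ≤ Y i X} : ℝ) ≤
        (Nat.card {δ : 𝓞 K // Cl i.2.2 δ ∧ (Nz δ : ℝ) ≤ Y i X ∧ Pr (ph i δ)} : ℝ) := by
    intro i
    refine (tendsto_Y i).eventually (p := fun Z : ℝ =>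
      0 < Nat.card {δ : 𝓞 K // Cl i.2.2 δ ∧ (Nz δ : ℝ) ≤ Z} ∧
      κ' * (Nat.card {δ : 𝓞 K // Cl i.2.2 δ ∧ (Nz δ : ℝ) ≤ Z} : ℝ) ≤
        (Nat.card {δ : 𝓞 K // Cl i.2.2 δ ∧ (Nz δ : ℝ) ≤ Z ∧ Pr (ph i δ)} : ℝ)) ?_
    obtain ⟨b, j, c⟩ := i
    cases b
    · refine DensA.main c (G1 c) κ κ' hκ (h1 c) (fun x => Pr (ph (false, j, c) x)) ?_
      intro S hS
      have := hPr1 j c S hS
      unfold ph
      simpa using this
    · refine DensA.main c (G2 c) κ κ' hκ (h2 c) (fun x => Pr (ph (true, j, c) x)) ?_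
      intro S hS
      have := hPr2 j c S hS
      unfold ph
      simpa using this
  have hall := Filter.eventually_all.2 hi
  filter_upwards [hall] with X hX
  simp only [abs_norm_le]
  rw [hcount X Pr, hcount' X]
  push_cast
  have hpos : (0 : ℝ) < ∑ i ∈ J, (Nat.card {x : 𝓞 K // Cl i.2.2 x ∧ (Nz x : ℝ) ≤ Y i X} : ℝ) :=
    sum_pos (fun i _ => by exact_mod_cast (hX i).1) hJne
  rw [le_div_iff₀ hpos, mul_sum]
  exact sum_le_sum fun i _ => (hX i).2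

/-- The density among all the squarefree elements. -/
theorem density_all (κ κ' : ℝ) (hκ : κ' < κ)
    (G1 G2 : F4 → Finset Pq → Prop) [∀ c, DecidablePred (G1 c)] [∀ c, DecidablePred (G2 c)]
    (h1 : ∀ c d : F4, ∀ ε : ℝ, 0 < ε → ∃ X₀ : ℕ, ∀ X : ℕ, X₀ ≤ X →
      κ * (((Sx Pq X).filter fun S => qd.A S = d).card : ℝ) - ε * X ≤
        (((Sx Pq X).filter fun S => qd.A S = d ∧ G1 c S).card : ℝ))
    (h2 : ∀ c d : F4, ∀ ε : ℝ, 0 < ε → ∃ X₀ : ℕ, ∀ X : ℕ, X₀ ≤ X →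
      κ * (((Sx Pq X).filter fun S => qd.A S = d).card : ℝ) - ε * X ≤
        (((Sx Pq X).filter fun S => qd.A S = d ∧ G2 c S).card : ℝ))
    (Pr : 𝓞 K → Prop)
    (hPr1 : ∀ (j : ℕ) (c : F4) (S : Finset Pq), G1 c S → Pr (wO ^ j * dlc c S))
    (hPr2 : ∀ (j : ℕ) (c : F4) (S : Finset Pq), G2 c S → Pr (2 * (wO ^ j * dlc c S))) :
    ∀ᶠ X : ℝ in Filter.atTop,
      κ' ≤ (Nat.card {δ : 𝓞 K // Squarefree δ ∧ |Algebra.norm ℤ δ| ≤ X ∧ Pr δ} : ℝ) /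
        (Nat.card {δ : 𝓞 K // Squarefree δ ∧ |Algebra.norm ℤ δ| ≤ X} : ℝ) := by
  have h := density_mod4 (fun _ => True) (fun _ _ _ => Iff.rfl) ⟨1, trivial, fun h4 => by
    have h5 : (2 : 𝓞 K) ∣ 1 := dvd_trans ⟨2, by norm_num⟩ h4
    exact DensA.prime_two.not_isUnit (isUnit_of_dvd_one h5)⟩ κ κ' hκ G1 G2 h1 h2 Pr hPr1 hPr2
  simpa only [true_and] using h

/-- The density for every class `u` modulo `4` not divisible by `4`. -/
theorem density_cls {u : 𝓞 K} (hu : ¬ (4 : 𝓞 K) ∣ u) (κ κ' : ℝ) (hκ : κ' < κ)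
    (G1 G2 : F4 → Finset Pq → Prop) [∀ c, DecidablePred (G1 c)] [∀ c, DecidablePred (G2 c)]
    (h1 : ∀ c d : F4, ∀ ε : ℝ, 0 < ε → ∃ X₀ : ℕ, ∀ X : ℕ, X₀ ≤ X →
      κ * (((Sx Pq X).filter fun S => qd.A S = d).card : ℝ) - ε * X ≤
        (((Sx Pq X).filter fun S => qd.A S = d ∧ G1 c S).card : ℝ))
    (h2 : ∀ c d : F4, ∀ ε : ℝ, 0 < ε → ∃ X₀ : ℕ, ∀ X : ℕ, X₀ ≤ X →
      κ * (((Sx Pq X).filter fun S => qd.A S = d).card : ℝ) - ε * X ≤
        (((Sx Pq X).filter fun S => qd.A S = d ∧ G2 c S).card : ℝ))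
    (Pr : 𝓞 K → Prop)
    (hPr1 : ∀ (j : ℕ) (c : F4) (S : Finset Pq), G1 c S → Pr (wO ^ j * dlc c S))
    (hPr2 : ∀ (j : ℕ) (c : F4) (S : Finset Pq), G2 c S → Pr (2 * (wO ^ j * dlc c S))) :
    ∀ᶠ X : ℝ in Filter.atTop,
      κ' ≤ (Nat.card {δ : 𝓞 K // Squarefree δ ∧ 4 ∣ δ - u ∧ |Algebra.norm ℤ δ| ≤ X ∧ Pr δ} : ℝ) /
        (Nat.card {δ : 𝓞 K // Squarefree δ ∧ 4 ∣ δ - u ∧ |Algebra.norm ℤ δ| ≤ X} : ℝ) := by
  refine density_mod4 (fun δ => (4 : 𝓞 K) ∣ δ - u) (fun x y hxy => ?_) ⟨u, by simp, hu⟩ κ κ' hκ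
    G1 G2 h1 h2 Pr hPr1 hPr2
  constructor
  · intro h
    have := dvd_sub h hxy
    rwa [sub_sub_sub_cancel_left, ← neg_sub, ← neg_sub, neg_neg] at this
  · intro h
    have := dvd_add hxy h
    rwa [sub_add_sub_cancel] at this

end

end Pool.Agent.Lib.MP_1a91b9_ntE
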