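import Pool.Agent.Lib.MP_1a91b9_ntH.R.OK
import Pool.Agent.Lib.MP_1a91b9_ntE.R.Two

/-!
# MP_1a91b9_nt (TwistDensity), even classes, part R: the system with the symbol of `2` satisfies
all the hypotheses of the engine
-/

set_option autoImplicit false

namespace Pool.Agent.Lib.MP_1a91b9_ntE

open Pool.Agent.Lib.MP_1a91b9_ntH

theorem qE_OK : qE.OK where
  rec_ := qd_rec
  cheb := cheb
  zt := zt
  cb := qE_cb
  h3 := qE_h3
  bl := qd_bl

end Pool.Agent.Lib.MP_1a91b9_ntE
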